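import Mathlib
import Pool.Agent.Lib.helper6.IntK

set_option autoImplicit false

namespace Pool.Agent.Results.MP_f9f43c_al.Counter

open Polynomial TensorProduct Algebra.TensorProduct Pool.Agent.Lib.helper6.IntK

/-- `Int_K(A)`, with `K` the fraction field of `D` and `B = K ⊗_D A` -/
noncomputable def IntK (D A : Type) [CommRing D] [IsDomain D] [Ring A] [Algebra D A] :
    Subring (FractionRing D)[X] :=
  ⨅ a : A, (includeRight : A →ₐ[D] FractionRing D ⊗[D] A).range.toSubring.comap
    (aeval (includeRight (R := D) (A := FractionRing D) a)).toRingHom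

theorem result : ∃ (D A : Type) (_ : CommRing D) (_ : IsDomain D) (_ : IsIntegrallyClosed D)
    (_ : Ring A) (_ : Algebra D A), Function.Injective (algebraMap D A) ∧
    Module.IsTorsionFree D A ∧ Module.Finite D A ∧ IsIntegrallyClosed (IntK D A) ∧
    ∃ b : FractionRing D ⊗[D] A, IsIntegral D b ∧ ∀ a : A, includeRight (R := D) a ≠ b := by
  refine ⟨ℚ[X], QuadraticAlgebra ℚ[X] (-X ^ 2) 0, inferInstance, inferInstance, inferInstance,
    inferInstance, inferInstance, FaithfulSMul.algebraMap_injective _ _, inferInstance,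
    inferInstance, ?_, (ex _).imp fun b h => h.2⟩
  have : IntK ℚ[X] (QuadraticAlgebra ℚ[X] (-X ^ 2) 0) =
      (Polynomial.mapRingHom (algebraMap ℚ[X] _)).range := by
    ext f
    simp only [IntK, Subring.mem_iInf]
    refine ⟨fun h => poly _ f fun d => ?_, ?_⟩
    · obtain ⟨a, ha⟩ := h (algebraMap _ _ d)
      refine val (B := FractionRing ℚ[X] ⊗[ℚ[X]] QuadraticAlgebra ℚ[X] (-X ^ 2) 0) f d ?_
      rw [AlgHom.commutes] at ha
      exact (show includeRight a = aeval _ f from ha) ▸ (Algebra.IsIntegral.isIntegral a).map _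
    · rintro ⟨g, rfl⟩ a
      exact ⟨aeval a g, by simp [aeval_map_algebraMap, ← aeval_algHom_apply]⟩
  rw [this]
  exact IsIntegrallyClosed.of_equiv (RingEquiv.ofBijective _ ⟨fun _ _ h => map_injective _
    (IsFractionRing.injective ℚ[X] _) (congrArg Subtype.val h), RingHom.rangeRestrict_surjective _⟩)

end Pool.Agent.Results.MP_f9f43c_al.Counter
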